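import Pool.Agent.Y63.KR.Chi

/-!
# The Knörr–Robinson conjecture as `p`-adic continuity in the genus

For a finite group `G`, a prime `p` and `X` the poset of the nontrivial `p`-subgroups of `G` let

`χ_g = |G|⁻¹ ∑_φ (χ(X^φ(Π_g)) - 1)`,

where `φ` runs over the homomorphisms to `G` from the fundamental group `Π_g` of the closed
orientable surface of genus `g`. For `g = 1` this is the reduced second equivariant Euler
characteristic of the Knörr–Robinson conjecture.

* For every `g ≥ 1`, `- χ_g` is an integer congruent to `|Hom(Π_g, G)| / |G|` modulo `p^(2g-2)`.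
* If `g ≥ 2` and `p^N (p - 1)` divides `g - 1` then `- χ_g` is congruent modulo `p^(N+1)` to the
  number `z_p(G)` of the irreducible characters of `p`-defect zero. So `χ_g` has a `p`-adic limit
  as `g → 1`, `g ≡ 1` modulo `p - 1`, and the limit is the value `- z_p(G)` predicted by the
  conjecture for `χ_1`.
* Hence `G` satisfies the Knörr–Robinson conjecture at `p` if and only if `χ_g` is `p`-adically
  continuous at `g = 1`; it suffices that `χ_g ≡ χ_1` modulo `p^N` for every `N` and one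
  `g = g(N) ≥ 2` with `p^N (p - 1)` dividing `g - 1`.
-/

namespace Pool.Agent.Results.MP_b6945b_al.SurfaceGroups

open Pool.Agent.Y63.KR Pool.Agent.Y63.AWC

/-- The surface group form of the Knörr–Robinson conjecture. -/
theorem result (p : ℕ) [Fact p.Prime] (G : Type) [Group G] [Finite G] :
    (∀ g : ℕ, 1 ≤ g → ∃ a c : ℤ, - surfaceChi p g G = a ∧
      (numHom g G : ℤ) = (Nat.card G : ℤ) * (a + (p : ℤ) ^ (2 * (g - 1)) * c)) ∧
    (∀ N g : ℕ, 2 ≤ g → p ^ N * (p - 1) ∣ g - 1 →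
      ∃ c : ℤ, - surfaceChi p g G = (numDefectZero p G : ℚ) + (p : ℚ) ^ (N + 1) * c) ∧
    (KRC p G ↔ - surfaceChi p 1 G = (numDefectZero p G : ℚ)) ∧
    (KRC p G ↔ ∀ N : ℕ, ∃ M : ℕ, ∀ g : ℕ, 2 ≤ g → p ^ M * (p - 1) ∣ g - 1 →
      ∃ c : ℤ, surfaceChi p g G - surfaceChi p 1 G = (p : ℚ) ^ N * c) ∧
    (KRC p G ↔ ∀ N : ℕ, ∃ g : ℕ, 2 ≤ g ∧ p ^ N * (p - 1) ∣ g - 1 ∧
      ∃ c : ℤ, surfaceChi p g G - surfaceChi p 1 G = (p : ℚ) ^ N * c) := by
  have hp := (Fact.out : p.Prime)
  have hp1 : (1 : ℤ) < p := by exact_mod_cast hp.one_lt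
  have hA : ∀ g : ℕ, 1 ≤ g → ∃ a c : ℤ, - surfaceChi p g G = a ∧
      (numHom g G : ℤ) = (Nat.card G : ℤ) * (a + (p : ℤ) ^ (2 * (g - 1)) * c) := by
    intro g hg
    obtain ⟨n, rfl⟩ : ∃ n, g = n + 1 := ⟨g - 1, by omega⟩
    obtain ⟨c, hc⟩ := alternatingSum_mod (p := p) (G := G) n
    refine ⟨alternatingSum p G (fun H => (surfaceCount (n + 1) H : ℤ)), -c, ?_, ?_⟩
    · rw [surfaceChi_eq, neg_neg]
    · have h1 := card_mul_surfaceCount (G := G) n
      rw [Nat.add_sub_cancel]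
      have h2 : (numHom (n + 1) G : ℤ) = (Nat.card G : ℤ) * (surfaceCount (n + 1) G : ℤ) := by
        rw [← h1]; push_cast; rfl
      rw [h2]
      congr 1
      linarith
  have hB : ∀ N g : ℕ, 2 ≤ g → p ^ N * (p - 1) ∣ g - 1 →
      ∃ c : ℤ, - surfaceChi p g G = (numDefectZero p G : ℚ) + (p : ℚ) ^ (N + 1) * c := by
    intro N g hg hd
    obtain ⟨n, rfl⟩ : ∃ n, g = n + 1 := ⟨g - 1, by omega⟩
    have hn0 : n ≠ 0 := by omega
    rw [Nat.add_sub_cancel] at hd
    obtain ⟨c, hc⟩ := alternatingSum_mod' (p := p) (G := G) hn0 hd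
    refine ⟨c, ?_⟩
    rw [surfaceChi_eq, neg_neg]
    have h2 := congrArg (Int.cast : ℤ → ℚ) hc
    push_cast at h2
    linarith
  have hC0 : KRC p G ↔ - surfaceChi p 1 G = (numDefectZero p G : ℚ) := by
    have h1 := surfaceChi_eq (p := p) (G := G) 0
    rw [sum_surfaceCount_one] at h1
    have h2 := altSum_classes (p := p) (G := G)
    unfold KRC
    rw [h1, h2, neg_neg]
    constructor
    · intro h; rw [h]; ring
    · intro h; linarith
  have hC1 : KRC p G ↔ alternatingSum p G (fun H => (Nat.card (ConjClasses H) : ℤ)) =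
      (numDefectZero p G : ℤ) := by
    rw [hC0]
    have h1 := surfaceChi_eq (p := p) (G := G) 0
    rw [sum_surfaceCount_one] at h1
    rw [h1, neg_neg]
    constructor
    · intro h; exact_mod_cast h
    · intro h; rw [h]; push_cast; rfl
  refine ⟨hA, hB, hC0, hC1.trans continuity_iff, ?_⟩
  constructor
  · intro h N
    have hp2 := hp.two_le
    have h0 : 0 < p ^ N * (p - 1) := Nat.mul_pos (pow_pos hp.pos _) (by omega)
    refine ⟨p ^ N * (p - 1) + 1, by omega, by rw [Nat.add_sub_cancel], ?_⟩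
    obtain ⟨c, hc⟩ := hB N (p ^ N * (p - 1) + 1) (by omega) (by rw [Nat.add_sub_cancel])
    refine ⟨-(p * c), ?_⟩
    have h1 := hC0.1 h
    push_cast
    rw [pow_succ] at hc
    linarith
  · intro h
    rw [hC0]
    by_contra hne
    obtain ⟨a, _, ha, _⟩ := hA 1 le_rfl
    have hD0 : a - (numDefectZero p G : ℤ) ≠ 0 := by
      intro h1
      apply hne
      rw [ha]
      have h2 : a = (numDefectZero p G : ℤ) := by linarith
      rw [h2]; push_cast; rfl
    set D := a - (numDefectZero p G : ℤ) with hD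
    obtain ⟨g, hg, hd, c, hc⟩ := h D.natAbs
    obtain ⟨c', hc'⟩ := hB D.natAbs g hg hd
    have h3 : D = (p : ℤ) ^ D.natAbs * (c + p * c') := by
      have h4 : ((D : ℤ) : ℚ) = (((p : ℤ) ^ D.natAbs * (c + p * c') : ℤ) : ℚ) := by
        have h5 : (D : ℚ) = (a : ℚ) - (numDefectZero p G : ℚ) := by rw [hD]; push_cast; rfl
        rw [h5]
        push_cast
        rw [pow_succ] at hc'
        linarith
      exact_mod_cast h4
    have h6 : |D| < (p : ℤ) ^ D.natAbs := by
      rw [Int.abs_eq_natAbs]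
      exact_mod_cast Nat.lt_pow_self hp.one_lt
    exact hD0 (Int.eq_zero_of_abs_lt_dvd ⟨_, h3⟩ h6)

end Pool.Agent.Results.MP_b6945b_al.SurfaceGroups
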