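import Pool.Agent.Y63.KR.Levels

/-!
# Galois forms of the Knörr–Robinson conjecture

Let `G` be a finite group, `p` a prime, `X` the poset of the nontrivial `p`-subgroups of `G`, and for
a number `s` let

`χ_s = |G|⁻¹ ∑ (χ(X^⟨x, y⟩) - 1)`

be the sum over the pairs `(x, y)` of elements of `G` with `y x y⁻¹ = x ^ s`. For `s = 1` these are the
commuting pairs, and `χ_1` is the reduced second equivariant Euler characteristic of the
Knörr–Robinson conjecture, `- χ_1 = z_p(G)`. For other `s` the groups `⟨x, y⟩` are metacyclic.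

* `- χ_s` is an integer, it is the alternating sum over the classes of chains `σ` of nontrivial
  `p`-subgroups of the number of those conjugacy classes `C` of the stabiliser `G_σ` with `C ^ s = C`.
* `χ_s` depends only on the class of `s` modulo the `p'`-part of `|G|`. So the Knörr–Robinson
  conjecture for `G` is equivalent to `- χ_s = z_p(G)`, for any `s` which is congruent to `1` modulo
  the `p'`-part of `|G|`.
* The Knörr–Robinson conjecture for `G` is equivalent to the statement that `z_p(G)` is the
  alternating sum of the numbers of the `p^a`-rational classes of the stabilisers, for any `a ≥ 0`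
  (`a ≥ 2` if `p = 2`): for `a = 0` only the classes which are invariant under the Galois group of
  the field of the roots of unity of `p`-power order are counted.
-/

open scoped Classical

namespace Pool.Agent.Results.MP_b6945b_al.TwistedPairs

open Pool.Agent.Y63.KR Pool.Agent.Y63.AWC

/-- The twisted second equivariant Euler characteristic (reduced) of the poset of the nontrivial
`p`-subgroups: `χ_s = |G|⁻¹ ∑ (χ(X^⟨x, y⟩) - 1)` over the pairs with `y x y⁻¹ = x ^ s`. -/
noncomputable def twistedChi (p s : ℕ) (G : Type) [Group G] : ℚ :=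
  (∑ᶠ q : {q : G × G // q.2 * q.1 * q.2⁻¹ = q.1 ^ s},
    ((eulerChar (fixedPoset p ({q.1.1, q.1.2} : Set G)) : ℚ) - 1)) / (Nat.card G : ℚ)

/-- The number of the conjugacy classes `C` with `C ^ s = C`. -/
noncomputable def numInvariant (s : ℕ) (H : Type) [Group H] : ℕ :=
  Nat.card {c : ConjClasses H // ∃ x : H, ConjClasses.mk x = c ∧ IsConj x (x ^ s)}

section

variable {p : ℕ} {G : Type} [Group G]

theorem twisted_eq [Fact p.Prime] [Finite G] (s : ℕ) :
    - twistedChi p s G = ((alternatingSum p G (fun H => (numInvariant s H : ℤ)) : ℤ) : ℚ) := by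
  have : Fintype (TwPair s G) := Fintype.ofFinite _
  have h0 : (Nat.card G : ℚ) ≠ 0 := by exact_mod_cast Nat.card_pos.ne'
  have h1 := sum_numR (p := p) (G := G) s (fun _ => True)
  have e2 : (fun H : Subgroup G => (numR s H (fun _ => True) : ℤ)) =
      fun H : Subgroup G => (numInvariant s H : ℤ) := funext fun H => by
    rw [← numFixed_eq]
    rfl
  rw [e2] at h1
  have h4 : ∑ q : TwPair s G, W p ({q.1.1, q.1.2} : Set G) * bz True =
      - ∑ q : TwPair s G, (eulerChar (fixedPoset p ({q.1.1, q.1.2} : Set G)) - 1) := by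
    simp only [bz_pos trivial, mul_one, W_eq]
    rw [← Finset.sum_neg_distrib]
    refine Finset.sum_congr rfl fun q _ => ?_
    ring
  rw [h4] at h1
  have h5 : (∑ᶠ q : {q : G × G // q.2 * q.1 * q.2⁻¹ = q.1 ^ s},
      ((eulerChar (fixedPoset p ({q.1.1, q.1.2} : Set G)) : ℚ) - 1)) =
      ((∑ q : TwPair s G, (eulerChar (fixedPoset p ({q.1.1, q.1.2} : Set G)) - 1) : ℤ) : ℚ) := by
    push_cast
    rw [← finsum_eq_sum_of_fintype]
  unfold twistedChi
  rw [h5]
  have h6 := congrArg (Int.cast : ℤ → ℚ) h1
  push_cast at h6 ⊢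
  rw [neg_eq_iff_eq_neg, div_eq_iff h0]
  linarith

theorem regular_congr {p : ℕ} [Fact p.Prime] [Finite G] {s t : ℕ}
    (h : s ≡ t [MOD Nat.card G / p ^ (Nat.card G).factorization p]) (H : Subgroup G) :
    numFixedRegular p s H = numFixedRegular p t H := by
  have hp := (Fact.out : p.Prime)
  have key : ∀ x : H, ¬ p ∣ orderOf x → x ^ s = x ^ t := by
    intro x hx
    rw [pow_eq_pow_iff_modEq]
    refine h.of_dvd ?_
    have h1 : orderOf x ∣ Nat.card G :=
      (orderOf_dvd_natCard x).trans (Subgroup.card_subgroup_dvd_card H)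
    have h2 : (orderOf x).Coprime (p ^ (Nat.card G).factorization p) :=
      Nat.Coprime.pow_right _ ((hp.coprime_iff_not_dvd.2 hx).symm)
    refine h2.dvd_of_dvd_mul_left ?_
    rw [Nat.ordProj_mul_ordCompl_eq_self]
    exact h1
  unfold numFixedRegular
  refine Nat.card_congr (Equiv.subtypeEquivRight fun c => ?_)
  constructor
  · rintro ⟨x, hx, h1, h2⟩
    exact ⟨x, hx, by rw [← key x h2]; exact h1, h2⟩
  · rintro ⟨x, hx, h1, h2⟩
    exact ⟨x, hx, by rw [key x h2]; exact h1, h2⟩

theorem twisted_congr [Fact p.Prime] [Finite G] {s t : ℕ}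
    (h : s ≡ t [MOD Nat.card G / p ^ (Nat.card G).factorization p]) :
    twistedChi p s G = twistedChi p t G := by
  have e1 : ∀ s : ℕ, (fun H : Subgroup G => (numInvariant s H : ℤ)) =
      fun H : Subgroup G => (numFixed s H : ℤ) := fun s => rfl
  have h1 := twisted_eq (p := p) (G := G) s
  have h2 := twisted_eq (p := p) (G := G) t
  rw [e1, galois] at h1 h2
  have h3 : (fun H : Subgroup G => (numFixedRegular p s H : ℤ)) =
      fun H : Subgroup G => (numFixedRegular p t H : ℤ) := funext fun H => by
    rw [regular_congr h H]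
  rw [h3, ← h2] at h1
  linarith

theorem krc_twisted [Fact p.Prime] [Finite G] {s : ℕ}
    (h : s ≡ 1 [MOD Nat.card G / p ^ (Nat.card G).factorization p]) :
    KRC p G ↔ - twistedChi p s G = (numDefectZero p G : ℚ) := by
  rw [twisted_congr h, twisted_eq]
  have e : (fun H : Subgroup G => (numInvariant 1 H : ℤ)) =
      fun H : Subgroup G => (Nat.card (ConjClasses H) : ℤ) := funext fun H => by
    change (numFixed 1 H : ℤ) = _
    rw [numFixed_one]
  rw [e, altSum_classes]
  unfold KRC
  constructor
  · intro h1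
    rw [h1]
    ring
  · intro h1
    linarith

end

/-- **Galois forms of the Knörr–Robinson conjecture.** -/
theorem result (p : ℕ) [Fact p.Prime] (G : Type) [Group G] [Finite G] :
    (∀ s : ℕ, - twistedChi p s G =
      ((alternatingSum p G (fun H => (numInvariant s H : ℤ)) : ℤ) : ℚ)) ∧
    (∀ s t : ℕ, s ≡ t [MOD Nat.card G / p ^ (Nat.card G).factorization p] →
      twistedChi p s G = twistedChi p t G) ∧
    (∀ s : ℕ, s ≡ 1 [MOD Nat.card G / p ^ (Nat.card G).factorization p] →
      (KRC p G ↔ - twistedChi p s G = (numDefectZero p G : ℚ))) ∧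
    (∀ a : ℕ, (p = 2 → 2 ≤ a) → (KRC p G ↔
      alternatingSum p G (fun H => (numRational p a H : ℤ)) = (numDefectZero p G : ℤ))) :=
  ⟨twisted_eq, fun _ _ => twisted_congr, fun _ => krc_twisted, krc_iff⟩

end Pool.Agent.Results.MP_b6945b_al.TwistedPairs
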